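import Pool.Agent.Helper89.MS.Final
import Pool.Agent.Helper89.MS.All
import Pool.Agent.Helper42.MS.Uni

/-!
# The largest t-intersecting families of k-multisets with bounded multiplicities (MP_8815b4_co, Q1)

For `1 ≤ t ≤ k`, `k ≥ 3`, `n ≥ 2k - t` and `l ≥ 2` (so for all `2 ≤ l ≤ k - 1`),
`m(n,l,k,t) = max_{0 ≤ i ≤ k-t} |F_i|`, where `F_i` is the family of all `k`-multisets `A` of `M(n,l)` with
`|A ∩ M(t+2i,1)| ≥ t+i`, and
`|F_i| = ∑_{s=t+i}^{t+2i} C(t+2i,s) [x^k] (x+…+x^l)^s (1+x+…+x^l)^(n-t-2i)`.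
The maximum is attained at the first `i` with `i = k - t` or `|F_{i+1}| < |F_i|`, and `|F_i| ≤ |F_{i+1}|` holds if
and only if `(i+1) c(t+i) ≤ (t+i) c(t+i+1)`, `c(s) = [x^k] (x+…+x^l)^s (1+x+…+x^l)^(n-t-2i-2)`.
-/

open Finset Polynomial

namespace Pool.Agent.Results.MP_8815b4_co.CompleteIntersection

/-- `M(n,l)`, the pairs `(i,j)` with `1 ≤ i ≤ n` and `1 ≤ j ≤ l` -/
def M (n l : ℕ) : Finset (ℕ × ℕ) := Icc 1 n ×ˢ Icc 1 l

/-- `A` is a `k`-multiset of `M(n,l)` -/
def IsMultiset (n l k : ℕ) (A : Finset (ℕ × ℕ)) : Prop :=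
  A ⊆ M n l ∧ #A = k ∧ ∀ i j, (i, j) ∈ A → ∀ j', 1 ≤ j' → j' ≤ j → (i, j') ∈ A

/-- `F` is a `t`-intersecting family of `k`-multisets of `M(n,l)` -/
def Intersecting (n l k t : ℕ) (F : Finset (Finset (ℕ × ℕ))) : Prop :=
  (∀ A ∈ F, IsMultiset n l k A) ∧ ∀ A ∈ F, ∀ B ∈ F, t ≤ #(A ∩ B)

/-- `m(n,l,k,t)`, the largest size of such a family -/
noncomputable def m (n l k t : ℕ) : ℕ := sSup {N | ∃ F, Intersecting n l k t F ∧ #F = N}

/-- the family `F_i` of all `k`-multisets `A` of `M(n,l)` with `|A ∩ M(t+2i,1)| ≥ t+i` -/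
noncomputable def Fam (n l k t i : ℕ) : Finset (Finset (ℕ × ℕ)) :=
  open Classical in
  (M n l).powerset.filter (fun A => IsMultiset n l k A ∧ t + i ≤ #(A ∩ M (t + 2 * i) 1))

/-- the coefficient of `x^k` in `(x + … + x^l)^s (1 + x + … + x^l)^q` -/
noncomputable def coef (l k s q : ℕ) : ℕ :=
  ((∑ i ∈ Icc 1 l, (X : ℕ[X]) ^ i) ^ s * (1 + ∑ i ∈ Icc 1 l, (X : ℕ[X]) ^ i) ^ q).coeff k

/-- the families `F_i` in both notations -/
theorem card_eq (n l k t i : ℕ) (h : t + 2 * i ≤ n) :
    #(Fam n l k t i) = Pool.Agent.Helper42.MSU.f k l t n i := by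
  have h1 := MS.card_FF' MS.count' n l k t i h
  rw [MS.sum_level (t + 2 * i) (t + i) (fun s => MS.W k l s (n - (t + 2 * i)))] at h1
  rw [Pool.Agent.Helper42.MSU.f_eq]
  exact h1

theorem result (n l k t : ℕ) (ht : 1 ≤ t) (htk : t ≤ k) (hn : 2 * k ≤ n + t) (hl : 2 ≤ l)
    (hk : 3 ≤ k) :
    (∀ i ≤ k - t, Intersecting n l k t (Fam n l k t i) ∧
      #(Fam n l k t i) =
        ∑ s ∈ Icc (t + i) (t + 2 * i), (t + 2 * i).choose s * coef l k s (n - (t + 2 * i))) ∧
    (∀ F, Intersecting n l k t F → #F ≤ (range (k - t + 1)).sup (fun i => #(Fam n l k t i))) ∧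
    m n l k t = (range (k - t + 1)).sup (fun i => #(Fam n l k t i)) ∧
    (∀ i ≤ k - t,
      (i < k - t → (t + i) * coef l k (t + i + 1) (n - (t + 2 * i + 2)) <
        (i + 1) * coef l k (t + i) (n - (t + 2 * i + 2))) →
      (∀ j < i, (j + 1) * coef l k (t + j) (n - (t + 2 * j + 2)) ≤
        (t + j) * coef l k (t + j + 1) (n - (t + 2 * j + 2))) →
      m n l k t = #(Fam n l k t i)) := by
  have up : ∀ F, Intersecting n l k t F →
      #F ≤ (range (k - t + 1)).sup (fun i => #(Fam n l k t i)) := by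
    intro F hF
    obtain ⟨r, hr, h⟩ := MS.upper MS.kernel' MS.count' n l k t
      (MS.mainw3 k l t n hk ht htk hl hn) hn F hF
    by_cases h1 : r ≤ k - t
    · exact h.trans (Finset.le_sup (f := fun i => #(Fam n l k t i)) (mem_range.2 (by omega)))
    · have h2 : MS.FF n l k t r = ∅ := MS.FF_empty (by omega)
      rw [h2, card_empty] at h
      exact h.trans (Nat.zero_le _)
  have fam : ∀ i, Intersecting n l k t (Fam n l k t i) := fun i => MS.FF_fam n l k t i
  have hm : m n l k t = (range (k - t + 1)).sup (fun i => #(Fam n l k t i)) := by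
    obtain ⟨i, _, hi⟩ := exists_mem_eq_sup (range (k - t + 1)) ⟨0, by simp⟩
      (fun i => #(Fam n l k t i))
    refine IsGreatest.csSup_eq ⟨?_, ?_⟩
    · rw [hi]
      exact ⟨Fam n l k t i, fam i, rfl⟩
    · rintro N ⟨F, hF, rfl⟩
      exact up F hF
  refine ⟨fun i hi => ⟨fam i, ?_⟩, up, hm, ?_⟩
  · rw [card_eq n l k t i (by omega), Pool.Agent.Helper42.MSU.f_eq]
    rfl
  · intro i hi h1 h2
    have e : ∀ j ≤ k - t, #(Fam n l k t j) = Pool.Agent.Helper42.MSU.f k l t n j :=
      fun j hj => card_eq n l k t j (by omega)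
    -- up to `i` the sizes increase
    have inc : ∀ j < i, Pool.Agent.Helper42.MSU.f k l t n j ≤
        Pool.Agent.Helper42.MSU.f k l t n (j + 1) := by
      intro j hj
      refine (Pool.Agent.Helper42.MSU.f_le_iff k l t n j ht (by omega)).2 ?_
      exact h2 j hj
    have incs : ∀ d j, j + d = i → Pool.Agent.Helper42.MSU.f k l t n j ≤
        Pool.Agent.Helper42.MSU.f k l t n i := by
      intro d
      induction d with
      | zero => intro j hj; rw [show j = i by omega]
      | succ d ih =>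
        intro j hj
        exact (inc j (by omega)).trans (ih (j + 1) (by omega))
    -- after `i` they decrease
    have dec : ∀ d, i + d < k - t → Pool.Agent.Helper42.MSU.f k l t n (i + d + 1) <
        Pool.Agent.Helper42.MSU.f k l t n (i + d) := by
      intro d
      induction d with
      | zero =>
        intro hd
        by_contra hc
        have := (Pool.Agent.Helper42.MSU.f_le_iff k l t n i ht (by omega)).1
          (by simpa using not_lt.1 hc)
        exact absurd (h1 (by omega)) (not_lt.2 this)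
      | succ d ih =>
        intro hd
        by_contra hc
        have h3 := Pool.Agent.Helper42.MSU.unimodal k l t n (i + d) ht hl hn (by omega) (by omega)
          (not_lt.1 hc)
        exact absurd (ih (by omega)) (not_lt.2 h3)
    have decs : ∀ d, i + d ≤ k - t → Pool.Agent.Helper42.MSU.f k l t n (i + d) ≤
        Pool.Agent.Helper42.MSU.f k l t n i := by
      intro d
      induction d with
      | zero => intro _; exact le_rfl
      | succ d ih =>
        intro hd
        exact (dec d (by omega)).le.trans (ih (by omega))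
    rw [hm]
    refine le_antisymm (Finset.sup_le fun j hj => ?_)
      (Finset.le_sup (f := fun i => #(Fam n l k t i)) (mem_range.2 (by omega)))
    rw [mem_range] at hj
    rw [e j (by omega), e i hi]
    rcases Nat.lt_or_ge i j with h | h
    · obtain ⟨d, rfl⟩ : ∃ d, j = i + d := ⟨j - i, by omega⟩
      exact decs d (by omega)
    · exact incs (i - j) j (by omega)

end Pool.Agent.Results.MP_8815b4_co.CompleteIntersection
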